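import Pool.Agent.H36.KBX.Coef
import Pool.Agent.H20.KAL.TAY
import Pool.Agent.H84.KBOX.Stmts

/-!
# Taylor polynomials (row TRM)
-/

set_option autoImplicit false

namespace Pool.Agent.H36.KBX

open MvPolynomial

/-- Truncation at degree `d`. -/
noncomputable def trunc {n : ℕ} (d : ℕ) (R : MvPolynomial (Fin n) ℝ) : MvPolynomial (Fin n) ℝ :=
  ∑ α ∈ R.support.filter (fun α => α.degree ≤ d), monomial α (coeff α R)

theorem coeff_trunc {n d : ℕ} (R : MvPolynomial (Fin n) ℝ) (α : Fin n →₀ ℕ) :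
    coeff α (trunc d R) = if α.degree ≤ d then coeff α R else 0 := by
  classical
  rw [trunc, coeff_sum]
  simp only [coeff_monomial]
  rw [Finset.sum_ite_eq' (R.support.filter (fun α => α.degree ≤ d)) α (fun β => coeff β R)]
  by_cases h : α.degree ≤ d
  · by_cases h2 : α ∈ R.support
    · rw [if_pos (Finset.mem_filter.2 ⟨h2, h⟩), if_pos h]
    · rw [if_neg (fun h3 => h2 (Finset.mem_filter.1 h3).1), if_pos h, notMem_support_iff.1 h2]
  · have h3 : α ∉ R.support.filter (fun α => α.degree ≤ d) := fun h3 =>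
      h (Finset.mem_filter.1 h3).2
    rw [if_neg h3, if_neg h]

theorem totalDegree_trunc {n d : ℕ} (R : MvPolynomial (Fin n) ℝ) :
    (trunc d R).totalDegree ≤ d := by
  rw [trunc]
  refine totalDegree_finsetSum_le fun α hα => ?_
  refine (totalDegree_monomial_le _ _).trans ?_
  exact (Finset.mem_filter.1 hα).2

/-- The translate of a polynomial. -/
noncomputable def shift {n : ℕ} (a : Fin n → ℝ) (Q : MvPolynomial (Fin n) ℝ) :
    MvPolynomial (Fin n) ℝ :=
  bind₁ (fun i => X i + C (a i)) Q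

theorem eval_shift {n : ℕ} (a : Fin n → ℝ) (Q : MvPolynomial (Fin n) ℝ) (y : Fin n → ℝ) :
    eval y (shift a Q) = eval (fun i => y i + a i) Q := by
  have h := eval₂Hom_bind₁ (RingHom.id ℝ) y (fun i => X i + C (a i)) Q
  have h2 : (fun i => eval₂Hom (RingHom.id ℝ) y (X i + C (a i) : MvPolynomial (Fin n) ℝ)) =
      fun i => y i + a i := by
    funext i
    rw [map_add, eval₂Hom_X', eval₂Hom_C]
    rfl
  rw [h2] at h
  exact h

theorem totalDegree_shift {n : ℕ} (a : Fin n → ℝ) (Q : MvPolynomial (Fin n) ℝ) :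
    (shift a Q).totalDegree ≤ Q.totalDegree := by
  have h := Pool.KS3.SML.totalDegree_bind_le (fun i : Fin n => (X i + C (a i) : MvPolynomial (Fin n) ℝ))
    1 (fun i => by
      refine (totalDegree_add _ _).trans ?_
      rw [totalDegree_X, totalDegree_C]
      simp) Q
  rwa [one_mul] at h

theorem trm_thm : Pool.KBX.TRMStmt := by
  intro n D d
  obtain ⟨C₁, hC₁0, hC₁⟩ := coef_bound n D
  obtain ⟨C₂, hC₂0, hC₂⟩ := der_bound n d
  obtain ⟨C₃, hC₃0, hC₃⟩ := Pool.KAL.tay_thm n (max D d) d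
  set N : ℝ := ((bx n (max D d)).card : ℝ) with hN
  have hN0 : 0 ≤ N := by rw [hN]; positivity
  set ρ : ℝ := 2 ^ (n * max D d) with hρ
  have hρ0 : 0 ≤ ρ := by rw [hρ]; positivity
  refine ⟨C₃ * (1 + N * (C₁ * ρ)) + C₂ * (N * (C₁ * ρ)) + 1, by
    have : 0 ≤ C₃ * (1 + N * (C₁ * ρ)) + C₂ * (N * (C₁ * ρ)) := by positivity
    linarith, ?_⟩
  intro Q a r S hQ ha hr0 hr1 hS
  have hS0 : 0 ≤ S := le_trans (abs_nonneg _) (hS (fun _ => 0) (by simp))
  set R := shift a Q with hR
  have hRd : R.totalDegree ≤ D := (totalDegree_shift a Q).trans hQ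
  have hRS : ∀ y : Fin n → ℝ, (∀ i, |y i| ≤ 1) → |eval y R| ≤ S := by
    intro y hy
    rw [hR, eval_shift]
    refine hS _ fun i => ?_
    refine (abs_add_le _ _).trans ?_
    have h1 := hy i
    have h2 : |a i| ≤ 1 := by rw [abs_of_nonneg (ha i).1]; exact (ha i).2
    linarith
  have hRc := hC₁ R S hRd hRS
  set Tr := trunc d R with hTr
  have hTc : ∀ α, |coeff α Tr| ≤ C₁ * S := by
    intro α
    rw [hTr, coeff_trunc]
    split_ifs with h
    · exact hRc α
    · rw [abs_zero]; positivity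
  have hTd : Tr.totalDegree ≤ d := totalDegree_trunc R
  have hTv : ∀ y : Fin n → ℝ, (∀ i, |y i| ≤ 2) → |eval y Tr| ≤ N * (C₁ * ρ) * S := by
    intro y hy
    refine (eval_bound Tr (hTd.trans (le_max_right D d)) _ 2 (by norm_num) hTc y hy).trans
      (le_of_eq ?_)
    rw [← hN, ← hρ]; ring
  set Q' := shift (fun i => - a i) Tr with hQ'
  have hQe : ∀ y : Fin n → ℝ, eval y Q' = eval (fun i => y i - a i) Tr := by
    intro y
    rw [hQ', eval_shift]
    rfl
  refine ⟨Q', (totalDegree_shift _ _).trans hTd, ?_, ?_⟩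
  · intro y hy
    have h1 : eval y Q = eval (fun i => y i - a i) R := by
      rw [hR, eval_shift]
      simp
    rw [hQe, h1, ← map_sub]
    have h2 : (R - Tr).totalDegree ≤ max D d :=
      (totalDegree_sub R Tr).trans (max_le_max hRd hTd)
    have h3 : ∀ α : Fin n →₀ ℕ, α.degree ≤ d → coeff α (R - Tr) = 0 := by
      intro α hα
      rw [coeff_sub, hTr, coeff_trunc, if_pos hα, sub_self]
    have h4 : ∀ z : Fin n → ℝ, (∀ i, |z i| ≤ 1) → |eval z (R - Tr)| ≤
        (1 + N * (C₁ * ρ)) * S := by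
      intro z hz
      rw [map_sub]
      refine (abs_sub _ _).trans ?_
      have e1 := hRS z hz
      have e2 := hTv z fun i => (hz i).trans (by norm_num)
      linarith
    refine (hC₃ (R - Tr) r _ h2 h3 hr0.le hr1 h4 _ hy).trans ?_
    have h5 : 0 ≤ r ^ (d + 1) * S := by positivity
    have h6 : 0 ≤ C₂ * (N * (C₁ * ρ)) + 1 := by positivity
    nlinarith [mul_nonneg h6 h5]
  · intro y hy
    have hy2 : ∀ i, |y i| ≤ 2 := by
      intro i
      have h1 := hy i
      have h2 := ha i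
      rw [abs_le] at h1 ⊢
      constructor <;> linarith [h1.1, h1.2, h2.1, h2.2]
    have hv : ∀ z : Fin n → ℝ, (∀ i, |z i| ≤ 1) → |eval z Q'| ≤ N * (C₁ * ρ) * S := by
      intro z hz
      rw [hQe]
      refine hTv _ fun i => ?_
      have h1 := hz i
      have h2 := ha i
      rw [abs_le] at h1 ⊢
      constructor <;> linarith [h1.1, h1.2, h2.1, h2.2]
    obtain ⟨_, g1, g2⟩ := hC₂ Q' _ ((totalDegree_shift _ _).trans hTd) hv y hy2
    have h7 : C₂ * (N * (C₁ * ρ) * S) ≤
        (C₃ * (1 + N * (C₁ * ρ)) + C₂ * (N * (C₁ * ρ)) + 1) * S := by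
      have h8 : 0 ≤ (C₃ * (1 + N * (C₁ * ρ)) + 1) * S := by positivity
      linarith
    exact ⟨fun i => (g1 i).trans h7, fun i j => (g2 i j).trans h7⟩

end Pool.Agent.H36.KBX
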