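import Mathlib
import Pool.Agent.H50.PW.Det
import Pool.Agent.H55.KS3.SML

/-!
# Coefficients, values and derivatives of polynomials of bounded degree
-/

set_option autoImplicit false

namespace Pool.Agent.H36.KBX

open MvPolynomial

/-- The exponents with all entries at most `D`. -/
noncomputable def bx (n D : ℕ) : Finset (Fin n →₀ ℕ) :=
  Finset.Iic (Finsupp.equivFunOnFinite.symm fun _ => D)

theorem mem_bx {n D : ℕ} {α : Fin n →₀ ℕ} : α ∈ bx n D ↔ ∀ i, α i ≤ D := by
  rw [bx, Finset.mem_Iic]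
  rfl

theorem support_bx {n D : ℕ} (P : MvPolynomial (Fin n) ℝ) (h : P.totalDegree ≤ D) :
    P.support ⊆ bx n D := by
  intro α hα
  rw [mem_bx]
  intro i
  exact (monomial_le_degreeOf i hα).trans ((degreeOf_le_totalDegree P i).trans h)

/-- A polynomial of degree at most `D` is a combination of its values on a grid. -/
theorem coef_bound (n D : ℕ) : ∃ C : ℝ, 0 ≤ C ∧ ∀ (P : MvPolynomial (Fin n) ℝ) (M : ℝ),
    P.totalDegree ≤ D → (∀ y : Fin n → ℝ, (∀ i, |y i| ≤ 1) → |eval y P| ≤ M) →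
    ∀ α, |coeff α P| ≤ C * M := by
  classical
  set g : (Fin n → Fin (D + 1)) → Fin n → ℝ := fun a i => ((a i : ℕ) : ℝ) / (D + 1) with hg
  have hD : (0 : ℝ) < D + 1 := by positivity
  let V := restrictTotalDegree (Fin n) ℝ D
  let ev : V →ₗ[ℝ] ((Fin n → Fin (D + 1)) → ℝ) :=
    { toFun := fun P a => eval (g a) (P : MvPolynomial (Fin n) ℝ)
      map_add' := by intro P Q; funext a; simp
      map_smul' := by intro c P; funext a; simp [smul_eval] }
  have hinj : LinearMap.ker ev = ⊥ := by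
    rw [LinearMap.ker_eq_bot']
    rintro ⟨P, hP⟩ h0
    rw [mem_restrictTotalDegree] at hP
    have hz : P = 0 := by
      refine eq_zero_of_eval_zero_at_prod_finset P
        (fun _ => Finset.image (fun b : Fin (D + 1) => ((b : ℕ) : ℝ) / (D + 1)) Finset.univ) ?_ ?_
      · intro i
        rw [Finset.card_image_of_injective]
        · rw [Finset.card_univ, Fintype.card_fin]
          exact Nat.lt_succ_of_le ((degreeOf_le_totalDegree P i).trans hP)
        · intro b b' hb
          have h1 : ((b : ℕ) : ℝ) / (D + 1) = ((b' : ℕ) : ℝ) / (D + 1) := hb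
          have h2 : ((b : ℕ) : ℝ) = ((b' : ℕ) : ℝ) := by
            field_simp at h1
            exact h1
          exact Fin.ext (Nat.cast_injective h2)
      · intro x hx
        have hx' : ∀ i, ∃ b : Fin (D + 1), ((b : ℕ) : ℝ) / (D + 1) = x i := by
          intro i
          obtain ⟨b, _, hb⟩ := Finset.mem_image.1 (hx i)
          exact ⟨b, hb⟩
        choose b hb using hx'
        have h1 : g b = x := funext hb
        have h2 := congrFun h0 b
        rw [← h1]
        exact h2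
    exact Subtype.ext hz
  obtain ⟨L, hL⟩ := ev.exists_leftInverse_of_injective hinj
  let Lg : (Fin n → Fin (D + 1)) → MvPolynomial (Fin n) ℝ := fun a => (L (Pi.single a 1) : V)
  refine ⟨∑ a, ∑ β ∈ (Lg a).support, |coeff β (Lg a)|,
    Finset.sum_nonneg fun a _ => Finset.sum_nonneg fun β _ => abs_nonneg _, ?_⟩
  intro P M hP hM α
  have hM0 : 0 ≤ M := le_trans (abs_nonneg _) (hM (fun _ => 0) (by simp))
  have hPV : P ∈ V := by
    show P ∈ restrictTotalDegree (Fin n) ℝ D
    rw [mem_restrictTotalDegree]; exact hP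
  have h1 : P = ∑ a, eval (g a) P • Lg a := by
    have h2 : L (ev ⟨P, hPV⟩) = ⟨P, hPV⟩ := by
      have := LinearMap.congr_fun hL ⟨P, hPV⟩
      exact this
    have h3 : ev ⟨P, hPV⟩ = ∑ a, eval (g a) P • (Pi.single a (1 : ℝ) : (Fin n → Fin (D + 1)) → ℝ) := by
      have h4 : ∀ v : (Fin n → Fin (D + 1)) → ℝ,
          v = ∑ a, v a • (Pi.single a (1 : ℝ) : (Fin n → Fin (D + 1)) → ℝ) := by
        intro v
        funext b
        rw [Finset.sum_apply]
        simp [Pi.single_apply]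
      exact h4 _
    rw [h3, map_sum] at h2
    have h5 := congrArg (fun v : V => (v : MvPolynomial (Fin n) ℝ)) h2
    simp only [map_smul] at h5
    rw [Submodule.coe_sum] at h5
    exact h5.symm
  have h2 : coeff α P = ∑ a, eval (g a) P * coeff α (Lg a) := by
    conv_lhs => rw [h1]
    rw [coeff_sum]
    refine Finset.sum_congr rfl fun a _ => ?_
    rw [coeff_smul, smul_eq_mul]
  rw [h2, Finset.sum_mul]
  refine le_trans (Finset.abs_sum_le_sum_abs _ _) (Finset.sum_le_sum fun a _ => ?_)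
  rw [abs_mul, mul_comm]
  refine mul_le_mul ?_ ?_ (abs_nonneg _) (Finset.sum_nonneg fun β _ => abs_nonneg _)
  · by_cases hα : α ∈ (Lg a).support
    · exact Finset.single_le_sum (f := fun β => |coeff β (Lg a)|) (fun β _ => abs_nonneg _) hα
    · rw [notMem_support_iff.1 hα, abs_zero]
      exact Finset.sum_nonneg fun β _ => abs_nonneg _
  · refine hM _ fun i => ?_
    show |((a i : ℕ) : ℝ) / (D + 1)| ≤ 1
    rw [abs_of_nonneg (by positivity), div_le_one hD]
    have := (a i).2
    have h3 : ((a i : ℕ) : ℝ) < D + 1 := by exact_mod_cast this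
    exact h3.le

/-- Values of a polynomial with small coefficients. -/
theorem eval_bound {n D : ℕ} (P : MvPolynomial (Fin n) ℝ) (hP : P.totalDegree ≤ D) (c ρ : ℝ)
    (hρ : 1 ≤ ρ) (hc : ∀ α, |coeff α P| ≤ c) (y : Fin n → ℝ) (hy : ∀ i, |y i| ≤ ρ) :
    |eval y P| ≤ (bx n D).card * (c * ρ ^ (n * D)) := by
  have hc0 : 0 ≤ c := le_trans (abs_nonneg _) (hc 0)
  rw [eval_eq']
  have h1 : ∑ d ∈ P.support, coeff d P * ∏ i, y i ^ d i
      = ∑ d ∈ bx n D, coeff d P * ∏ i, y i ^ d i := by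
    refine Finset.sum_subset (support_bx P hP) fun d _ hd => ?_
    rw [notMem_support_iff.1 hd, zero_mul]
  rw [h1]
  refine le_trans (Finset.abs_sum_le_sum_abs _ _) ?_
  rw [← nsmul_eq_mul]
  refine Finset.sum_le_card_nsmul _ _ _ fun d hd => ?_
  rw [abs_mul]
  refine mul_le_mul (hc d) ?_ (abs_nonneg _) hc0
  rw [Finset.abs_prod]
  have h2 : ∀ i ∈ (Finset.univ : Finset (Fin n)), |y i ^ d i| ≤ ρ ^ D := by
    intro i _
    rw [abs_pow]
    refine (pow_le_pow_left₀ (abs_nonneg _) (hy i) _).trans ?_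
    exact pow_le_pow_right₀ hρ (mem_bx.1 hd i)
  refine le_trans (Finset.prod_le_prod (fun i _ => abs_nonneg _) h2) (le_of_eq ?_)
  rw [Finset.prod_const, Finset.card_univ, Fintype.card_fin, ← pow_mul, mul_comm]

/-- Derivatives of a polynomial with small coefficients. -/
theorem coeff_pderiv_bound {n D : ℕ} (P : MvPolynomial (Fin n) ℝ) (hP : P.totalDegree ≤ D) (c : ℝ)
    (hc : ∀ α, |coeff α P| ≤ c) (i : Fin n) (α : Fin n →₀ ℕ) :
    |coeff α (pderiv i P)| ≤ c * (D + 1) := by
  have hc0 : 0 ≤ c := le_trans (abs_nonneg _) (hc 0)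
  by_cases hα : coeff α (pderiv i P) = 0
  · rw [hα, abs_zero]; positivity
  · have h1 : α ∈ (pderiv i P).support := mem_support_iff.2 hα
    have h2 := support_bx (pderiv i P) ((Pool.Agent.H50.PW.totalDegree_pderiv_le P i).trans hP) h1
    rw [coeff_pderiv, abs_mul]
    refine mul_le_mul (hc _) ?_ (abs_nonneg _) hc0
    have h3 : (α i : ℝ) ≤ D := by exact_mod_cast mem_bx.1 h2 i
    rw [abs_of_nonneg (by positivity)]
    linarith

/-- Values and derivatives up to the second order on a larger cube. -/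
theorem der_bound (n D : ℕ) : ∃ C : ℝ, 0 ≤ C ∧ ∀ (P : MvPolynomial (Fin n) ℝ) (M : ℝ),
    P.totalDegree ≤ D → (∀ y : Fin n → ℝ, (∀ i, |y i| ≤ 1) → |eval y P| ≤ M) →
    ∀ y : Fin n → ℝ, (∀ i, |y i| ≤ 2) → |eval y P| ≤ C * M ∧
      (∀ i, |eval y (pderiv i P)| ≤ C * M) ∧ ∀ i j, |eval y (pderiv i (pderiv j P))| ≤ C * M := by
  obtain ⟨C, hC0, hC⟩ := coef_bound n D
  refine ⟨(bx n D).card * (C * (D + 1) * (D + 1) * 2 ^ (n * D)), by positivity, ?_⟩
  intro P M hP hM y hy
  have hM0 : 0 ≤ M := le_trans (abs_nonneg _) (hM (fun _ => 0) (by simp))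
  have h1 := hC P M hP hM
  have hd : ∀ i, (pderiv i P).totalDegree ≤ D := fun i =>
    (Pool.Agent.H50.PW.totalDegree_pderiv_le P i).trans hP
  have hdd : ∀ i j, (pderiv i (pderiv j P)).totalDegree ≤ D := fun i j =>
    (Pool.Agent.H50.PW.totalDegree_pderiv_le _ i).trans (hd j)
  have h2 : ∀ i α, |coeff α (pderiv i P)| ≤ C * M * (D + 1) := fun i α =>
    coeff_pderiv_bound P hP _ h1 i α
  have h3 : ∀ i j α, |coeff α (pderiv i (pderiv j P))| ≤ C * M * (D + 1) * (D + 1) := fun i j α =>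
    coeff_pderiv_bound _ (hd j) _ (h2 j) i α
  have hD1 : (1 : ℝ) ≤ D + 1 := by linarith [(Nat.cast_nonneg D : (0 : ℝ) ≤ D)]
  have hCM : 0 ≤ C * M := by positivity
  have e1 : C * M ≤ C * M * (D + 1) := le_mul_of_one_le_right hCM hD1
  have e2 : C * M * (D + 1) ≤ C * M * (D + 1) * (D + 1) :=
    le_mul_of_one_le_right (by positivity) hD1
  have key : ∀ R : MvPolynomial (Fin n) ℝ, R.totalDegree ≤ D →
      (∀ α, |coeff α R| ≤ C * M * (D + 1) * (D + 1)) →
      |eval y R| ≤ (bx n D).card * (C * (D + 1) * (D + 1) * 2 ^ (n * D)) * M := by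
    intro R hR hc
    refine (eval_bound R hR _ 2 (by norm_num) hc y hy).trans (le_of_eq ?_)
    ring
  refine ⟨key P hP fun α => (h1 α).trans (e1.trans e2), fun i => key _ (hd i) fun α =>
    (h2 i α).trans e2, fun i j => key _ (hdd i j) (h3 i j)⟩

end Pool.Agent.H36.KBX
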