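import Pool.Agent.H84.KBOX.StmtsU
import Pool.Agent.H84.KBOX.BlkE

/-!
# Line polynomials in a cell (row LPC)
-/

set_option autoImplicit false

namespace Pool.Agent.H36.KBX

open Pool.KBX Pool.KS3

theorem rl_mulX {n : ℕ} (Q : MvPolynomial (Fin n) ℝ) (j : Fin n) (a v : Fin n → ℝ) :
    rl (Q * MvPolynomial.X j) a v =
      rl Q a v * (Polynomial.C (a j) + Polynomial.C (v j) * Polynomial.X) := by
  unfold rl
  rw [map_mul, MvPolynomial.aeval_X]

theorem derivative_rl {n : ℕ} (Q : MvPolynomial (Fin n) ℝ) (a v : Fin n → ℝ) :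
    Polynomial.derivative (rl Q a v) =
      ∑ i, Polynomial.C (v i) * rl (MvPolynomial.pderiv i Q) a v := by
  induction Q using MvPolynomial.induction_on with
  | C c =>
    have h1 : rl (MvPolynomial.C c) a v = Polynomial.C c := by
      unfold rl
      rw [MvPolynomial.aeval_C]
      rfl
    rw [h1, Polynomial.derivative_C]
    symm
    refine Finset.sum_eq_zero fun i _ => ?_
    rw [MvPolynomial.pderiv_C]
    unfold rl
    rw [map_zero, mul_zero]
  | add P Q hP hQ =>
    have h1 : ∀ P Q : MvPolynomial (Fin n) ℝ, rl (P + Q) a v = rl P a v + rl Q a v := by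
      intro P Q
      unfold rl
      rw [map_add]
    rw [h1, Polynomial.derivative_add, hP, hQ, ← Finset.sum_add_distrib]
    refine Finset.sum_congr rfl fun i _ => ?_
    rw [map_add, h1, mul_add]
  | mul_X P j hP =>
    have h1 : ∀ P Q : MvPolynomial (Fin n) ℝ, rl (P + Q) a v = rl P a v + rl Q a v := by
      intro P Q
      unfold rl
      rw [map_add]
    have h2 : ∀ i, rl (MvPolynomial.pderiv i (P * MvPolynomial.X j)) a v =
        rl (MvPolynomial.pderiv i P) a v *
          (Polynomial.C (a j) + Polynomial.C (v j) * Polynomial.X) +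
        if i = j then rl P a v else 0 := by
      intro i
      rw [MvPolynomial.pderiv_mul, h1, rl_mulX, MvPolynomial.pderiv_X]
      congr 1
      by_cases h : i = j
      · subst h
        rw [if_pos rfl, Pi.single_eq_same, mul_one]
      · rw [if_neg h, Pi.single_eq_of_ne' h, mul_zero]
        unfold rl
        rw [map_zero]
    rw [rl_mulX, Polynomial.derivative_mul, hP]
    simp only [h2, mul_add]
    rw [Finset.sum_add_distrib]
    congr 1
    · rw [← mul_add, Finset.sum_mul]
      refine Finset.sum_congr rfl fun i _ => ?_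
      ring
    · rw [Finset.sum_eq_single j]
      · rw [if_pos rfl]
        simp only [Polynomial.derivative_add, Polynomial.derivative_C, Polynomial.derivative_mul,
          Polynomial.derivative_X]
        ring
      · intro i _ h
        rw [if_neg h, mul_zero]
      · intro h
        exact absurd (Finset.mem_univ _) h

/-- Mean value inequality along a segment. -/
theorem mvt_seg {n : ℕ} (G : MvPolynomial (Fin n) ℝ) (y z : Fin n → ℝ) (S R : ℝ)
    (hyz : ∀ i, |z i - y i| ≤ R)
    (hS : ∀ t : ℝ, 0 ≤ t → t ≤ 1 → ∀ i,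
      |MvPolynomial.eval (fun i => y i + t * (z i - y i)) (MvPolynomial.pderiv i G)| ≤ S) :
    |MvPolynomial.eval z G - MvPolynomial.eval y G| ≤ n * (S * R) := by
  set v : Fin n → ℝ := fun i => z i - y i with hv
  obtain ⟨c, hc, h⟩ := exists_hasDerivAt_eq_slope (fun t => (rl G y v).eval t)
    (fun t => (Polynomial.derivative (rl G y v)).eval t) (show (0 : ℝ) < 1 by norm_num)
    (Polynomial.continuous _).continuousOn (fun t _ => Polynomial.hasDerivAt _ t)
  have h0 : (rl G y v).eval 0 = MvPolynomial.eval y G := by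
    rw [rl_eval]
    congr 2
    funext i
    ring
  have h1 : (rl G y v).eval 1 = MvPolynomial.eval z G := by
    rw [rl_eval]
    congr 2
    funext i
    rw [hv]
    ring
  simp only [h0, h1] at h
  rw [sub_zero, div_one] at h
  rw [← h, derivative_rl, Polynomial.eval_finsetSum]
  refine (Finset.abs_sum_le_sum_abs _ _).trans ?_
  have hS0 : ∀ i : Fin n, 0 ≤ S := fun i => (abs_nonneg _).trans (hS 0 le_rfl zero_le_one i)
  calc ∑ i, |Polynomial.eval c (Polynomial.C (v i) * rl (MvPolynomial.pderiv i G) y v)|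
      ≤ ∑ _i : Fin n, S * R := by
        refine Finset.sum_le_sum fun i _ => ?_
        rw [Polynomial.eval_mul, Polynomial.eval_C, rl_eval, abs_mul, mul_comm]
        exact mul_le_mul (hS c hc.1.le hc.2.le i) (hyz i) (abs_nonneg _) (hS0 i)
    _ = n * (S * R) := by
        rw [Finset.sum_const, Finset.card_univ, Fintype.card_fin, nsmul_eq_mul]

theorem lpc_thm : Pool.KBX.LPCStmt := by
  intro n C₀ hC₀
  obtain ⟨c₁, hc₁⟩ := pow_unbounded_of_one_lt (n + 1 + C₀) (show (1 : ℝ) < 2 by norm_num)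
  refine ⟨c₁, ?_⟩
  intro Ω Λ Ξ _ p lam x T pos A B L a b d k s G c hL hd hG hD1 hkL haL hnear
  have haL' : a ≤ L := by omega
  have hn0 : (0 : ℝ) ≤ n := Nat.cast_nonneg n
  have hC0 : 0 ≤ C₀ := by linarith
  have h2 : ∀ m : ℕ, (0 : ℝ) < 2 ^ m := fun m => by positivity
  -- the line polynomial
  refine ⟨fun l => Polynomial.C (2 ^ k) *
    ((Polynomial.C (A l.1 none + (l.2 : ℝ) / 2 ^ a * B l.1 none) +
      Polynomial.C (B l.1 none / 2 ^ a) * Polynomial.X) -
      rl G (fun i => A l.1 (some i) + (l.2 : ℝ) / 2 ^ a * B l.1 (some i))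
        (fun i => B l.1 (some i) / 2 ^ a)), ?_, ?_, ?_⟩
  · intro ω _
    have h := hnear ω.1 ω.2.1 ω.2.2
    rw [abs_mul, abs_of_pos (h2 k)]
    calc (2 : ℝ) ^ k * |rp (2 ^ L) pos (x ω.1) none -
        MvPolynomial.eval (fun i => rp (2 ^ L) pos (x ω.1) (some i)) G|
        ≤ 2 ^ k * (1 / 2 ^ k) := mul_le_mul_of_nonneg_left h (h2 k).le
      _ = 1 := by field_simp
  · intro l
    refine (Polynomial.natDegree_C_mul_le _ _).trans ?_
    refine (Polynomial.natDegree_sub_le _ _).trans (max_le ?_ (rl_deg _ _ _ hG))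
    refine (Polynomial.natDegree_add_le _ _).trans (max_le ?_ ?_)
    · rw [Polynomial.natDegree_C]
      exact Nat.zero_le _
    · exact ((Polynomial.natDegree_C_mul_le _ _).trans Polynomial.natDegree_X_le).trans hd
  · intro ω _
    obtain ⟨ω, hω0, hωc⟩ := ω
    obtain ⟨r, hr⟩ : ∃ r, r = 2 ^ (L - a) := ⟨_, rfl⟩
    have hr0 : 0 < r := by rw [hr]; positivity
    have hrL : (2 : ℝ) ^ L = 2 ^ a * r := by
      rw [hr]
      push_cast
      rw [← pow_add]
      congr 1
      omega
    have hr0' : (0 : ℝ) < r := by exact_mod_cast hr0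
    -- the time
    have ht : ∀ l : Λ, Polynomial.eval (((T (x ω) % 2 ^ (L - a) : ℕ) : ℝ) / 2 ^ (L - a))
        (Polynomial.C (2 ^ k) *
        ((Polynomial.C (A l none + ((T (x ω) / 2 ^ (L - a) : ℕ) : ℝ) / 2 ^ a * B l none) +
          Polynomial.C (B l none / 2 ^ a) * Polynomial.X) -
          rl G (fun i => A l (some i) + ((T (x ω) / 2 ^ (L - a) : ℕ) : ℝ) / 2 ^ a *
            B l (some i)) (fun i => B l (some i) / 2 ^ a))) =
        2 ^ k * ((A l none + (T (x ω) : ℝ) / 2 ^ L * B l none) -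
          MvPolynomial.eval (fun i => A l (some i) + (T (x ω) : ℝ) / 2 ^ L * B l (some i)) G) := by
      intro l
      have e0 : ((T (x ω) : ℕ) : ℝ) = r * ((T (x ω) / r : ℕ) : ℝ) + ((T (x ω) % r : ℕ) : ℝ) := by
        exact_mod_cast (Nat.div_add_mod (T (x ω)) r).symm
      have e1 : ∀ u w : ℝ, u + ((T (x ω) / r : ℕ) : ℝ) / 2 ^ a * w +
          w / 2 ^ a * (((T (x ω) % r : ℕ) : ℝ) / r) = u + (T (x ω) : ℝ) / 2 ^ L * w := by
        intro u w
        rw [hrL, e0]
        field_simp
        ring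
      have hr' : (2 : ℝ) ^ (L - a) = r := by rw [hr]; push_cast; rfl
      rw [hr', ← hr, Polynomial.eval_mul, Polynomial.eval_C, Polynomial.eval_sub,
        Polynomial.eval_add, Polynomial.eval_C, Polynomial.eval_mul, Polynomial.eval_C,
        Polynomial.eval_X, rl_eval, e1]
      have e2 : (fun i => A l (some i) + ((T (x ω) / r : ℕ) : ℝ) / 2 ^ a * B l (some i) +
          ((T (x ω) % r : ℕ) : ℝ) / r * (B l (some i) / 2 ^ a)) =
          fun i => A l (some i) + (T (x ω) : ℝ) / 2 ^ L * B l (some i) := by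
        funext i
        rw [mul_comm (((T (x ω) % r : ℕ) : ℝ) / r)]
        exact e1 _ _
      rw [e2]
    show |2 ^ k * (rp (2 ^ L) pos (x ω) none -
        MvPolynomial.eval (fun i => rp (2 ^ L) pos (x ω) (some i)) G) - _| ≤ 3 * C₀ / 2 ^ b
    unfold lamc
    rw [ht (lam ω)]
    have hM : ((2 ^ L : ℕ) : ℝ) = (2 : ℝ) ^ L := by push_cast; rfl
    have near : ∀ i, |rp (2 ^ L) pos (x ω) i - (A (lam ω) i + (T (x ω) : ℝ) / 2 ^ L *
        B (lam ω) i)| ≤ C₀ / 2 ^ L := by
      intro i
      have := hL.near ω i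
      unfold rp
      rw [hM] at this ⊢
      exact this
    -- the point is in the cell
    have hcell : ∀ i, |rp (2 ^ L) pos (x ω) (some i) - crn (2 ^ L) (2 ^ (L - a)) c i| ≤
        1 / 2 ^ a := by
      intro i
      have h3 : pos (x ω) (some i) / r = c (some i) := by
        rw [hr]
        exact congrFun hωc (some i)
      have h4 := Nat.div_add_mod (pos (x ω) (some i)) r
      have h5 := Nat.mod_lt (pos (x ω) (some i)) hr0
      rw [h3] at h4
      have h6 : ((pos (x ω) (some i) : ℕ) : ℝ) = r * c (some i) +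
          ((pos (x ω) (some i) % r : ℕ) : ℝ) := by exact_mod_cast h4.symm
      have h7 : ((pos (x ω) (some i) % r : ℕ) : ℝ) ≤ r := by exact_mod_cast h5.le
      unfold rp crn
      rw [hM, ← hr, h6, hrL]
      push_cast
      have h8 : ((r : ℝ) * c (some i) + ((pos (x ω) (some i) % r : ℕ) : ℝ)) / (2 ^ a * r) -
          (c (some i) : ℝ) * r / (2 ^ a * r) = ((pos (x ω) (some i) % r : ℕ) : ℝ) / (2 ^ a * r) := by
        field_simp
        ring
      rw [h8, abs_of_nonneg (by positivity), div_le_div_iff₀ (by positivity) (by positivity),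
        one_mul]
      rw [mul_comm]
      exact mul_le_mul_of_nonneg_left h7 (by positivity)
    have hsm : C₀ / 2 ^ L ≤ 1 / 2 ^ a := by
      rw [div_le_div_iff₀ (h2 L) (h2 a), one_mul]
      have h3 : (2 : ℝ) ^ (a + c₁) ≤ 2 ^ L := pow_le_pow_right₀ (by norm_num) haL
      rw [pow_add] at h3
      have h4 : C₀ * 2 ^ a ≤ 2 ^ a * 2 ^ c₁ := by
        rw [mul_comm]
        exact mul_le_mul_of_nonneg_left (by linarith) (h2 a).le
      linarith
    -- the mean value
    have hmv := mvt_seg G (fun i => rp (2 ^ L) pos (x ω) (some i))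
      (fun i => A (lam ω) (some i) + (T (x ω) : ℝ) / 2 ^ L * B (lam ω) (some i)) (2 ^ s)
      (C₀ / 2 ^ L) (fun i => by
        rw [abs_sub_comm]
        exact near (some i)) (fun t ht0 ht1 i => hD1 _ (fun j => by
          have h3 := near (some j)
          have h4 := hcell j
          have h5 : |t * (A (lam ω) (some j) + (T (x ω) : ℝ) / 2 ^ L * B (lam ω) (some j) -
              rp (2 ^ L) pos (x ω) (some j))| ≤ 1 / 2 ^ a := by
            rw [abs_mul, abs_of_nonneg ht0, abs_sub_comm]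
            calc t * _ ≤ 1 * (C₀ / 2 ^ L) := mul_le_mul ht1 h3 (abs_nonneg _) zero_le_one
              _ ≤ 1 / 2 ^ a := by rw [one_mul]; exact hsm
          calc _ = |(rp (2 ^ L) pos (x ω) (some j) - crn (2 ^ L) (2 ^ (L - a)) c j) +
              t * (A (lam ω) (some j) + (T (x ω) : ℝ) / 2 ^ L * B (lam ω) (some j) -
              rp (2 ^ L) pos (x ω) (some j))| := by
                congr 1
                ring
            _ ≤ _ := abs_add_le _ _
            _ ≤ 2 * (1 / 2 ^ a) := by linarith) i)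
    have h3 := near none
    have h4 : ∀ u v w z : ℝ, (2 : ℝ) ^ k * (u - v) - 2 ^ k * (w - z) =
        2 ^ k * ((u - w) + (z - v)) := fun u v w z => by ring
    rw [h4, abs_mul, abs_of_pos (h2 k)]
    have h5 : |(rp (2 ^ L) pos (x ω) none - (A (lam ω) none + (T (x ω) : ℝ) / 2 ^ L *
        B (lam ω) none)) + (MvPolynomial.eval (fun i => A (lam ω) (some i) + (T (x ω) : ℝ) /
          2 ^ L * B (lam ω) (some i)) G -
        MvPolynomial.eval (fun i => rp (2 ^ L) pos (x ω) (some i)) G)| ≤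
        C₀ / 2 ^ L + n * (2 ^ s * (C₀ / 2 ^ L)) :=
      (abs_add_le _ _).trans (add_le_add h3 hmv)
    refine (mul_le_mul_of_nonneg_left h5 (h2 k).le).trans ?_
    have h6 : C₀ / 2 ^ L + n * (2 ^ s * (C₀ / 2 ^ L)) ≤ (n + 1) * 2 ^ s * (C₀ / 2 ^ L) := by
      have h7 : (1 : ℝ) ≤ 2 ^ s := one_le_pow₀ (by norm_num)
      have h8 : 0 ≤ C₀ / 2 ^ L := by positivity
      nlinarith
    refine (mul_le_mul_of_nonneg_left h6 (h2 k).le).trans ?_
    have h7 : (2 : ℝ) ^ (k + b + s + c₁) ≤ 2 ^ L := pow_le_pow_right₀ (by norm_num) hkL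
    have h8 : (2 : ℝ) ^ k * ((n + 1) * 2 ^ s * (C₀ / 2 ^ L)) =
        (n + 1) * (2 ^ k * 2 ^ s) * C₀ / 2 ^ L := by ring
    rw [h8, div_le_div_iff₀ (h2 L) (h2 b)]
    have h9 : ((n : ℝ) + 1) * (2 ^ k * 2 ^ s) * 2 ^ b ≤ 2 ^ L := by
      refine le_trans ?_ h7
      have : (2 : ℝ) ^ (k + b + s + c₁) = 2 ^ c₁ * (2 ^ k * 2 ^ s) * 2 ^ b := by
        rw [pow_add, pow_add, pow_add]; ring
      rw [this]
      have h10 : (n : ℝ) + 1 ≤ 2 ^ c₁ := by linarith
      gcongr
    calc (n + 1) * (2 ^ k * 2 ^ s) * C₀ * 2 ^ b = C₀ * ((n + 1) * (2 ^ k * 2 ^ s) * 2 ^ b) := by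
          ring
      _ ≤ C₀ * 2 ^ L := mul_le_mul_of_nonneg_left h9 hC0
      _ ≤ 3 * C₀ * 2 ^ L := by
          have : 0 ≤ C₀ * 2 ^ L := by positivity
          linarith

end Pool.Agent.H36.KBX
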